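import Pool.Agent.H705.TR.Stm

set_option autoImplicit false

namespace Pool.Agent.H969.TR.PRD

open Finset
open Pool.Agent.H705.TR

/-- the condition at one prime -/
def Q (l r : ℕ) : Prop := ¬ (l ∣ r ∨ l ∣ r + 2 ∨ l ∣ r + 6)

theorem Q_mod (l y : ℕ) : Q l (y % l) ↔ Q l y := by
  have h : ∀ β : ℕ, (l ∣ y % l + β ↔ l ∣ y + β) := fun β =>
    (((Nat.mod_modEq y l).add_right β).dvd_iff (dvd_refl l))
  unfold Q
  rw [h 2, h 6]
  have h0 := h 0
  rw [Nat.add_zero, Nat.add_zero] at h0
  rw [h0]

theorem un_congr (m : ℕ) (A B : ℕ → Prop) (h : ∀ y, A y ↔ B y) : un m A = un m B := by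
  have : A = B := funext fun y => propext (h y)
  rw [this]

theorem un_two : un 2 (Q 2) = 1 / 2 := by
  classical
  unfold un
  have e : (range 2).filter (Q 2) = {1} := by
    ext y
    simp only [mem_filter, mem_range, mem_singleton, Q]
    constructor
    · rintro ⟨h1, h2⟩
      omega
    · rintro rfl
      omega
  have e2 : ((range 2).filter (Q 2)).card = 1 := by rw [e]; rfl
  have e3 : (@Finset.filter ℕ (Q 2) (fun a => Classical.propDecidable (Q 2 a)) (range 2)).card = 1 := by
    rw [← e2]
  rw [e3]
  norm_num

theorem un_three : un 3 (Q 3) = 1 / 3 := by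
  classical
  unfold un
  have e : (range 3).filter (Q 3) = {2} := by
    ext y
    simp only [mem_filter, mem_range, mem_singleton, Q]
    constructor
    · rintro ⟨h1, h2⟩
      omega
    · rintro rfl
      omega
  have e2 : ((range 3).filter (Q 3)).card = 1 := by rw [e]; rfl
  have e3 : (@Finset.filter ℕ (Q 3) (fun a => Classical.propDecidable (Q 3 a)) (range 3)).card = 1 := by
    rw [← e2]
  rw [e3]
  norm_num

theorem dvd_small {l a : ℕ} (hl : 0 < l) (h : l ∣ a) (ha : a < 2 * l) : a = 0 ∨ a = l := by
  obtain ⟨k, rfl⟩ := h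
  have hk : k < 2 := by
    by_contra hk
    have : 2 ≤ k := by omega
    have := Nat.mul_le_mul_left l this
    omega
  interval_cases k
  · left; ring
  · right; ring

theorem un_big {l : ℕ} (hp : l.Prime) (h2 : l ≠ 2) (h3 : l ≠ 3) : un l (Q l) = 1 - 3 / (l : ℝ) := by
  classical
  have hl5 : 5 ≤ l := by
    have := hp.two_le
    rcases Nat.lt_or_ge l 5 with h | h
    · interval_cases l
      · exact absurd rfl h2
      · exact absurd rfl h3
      · exact absurd hp (by norm_num)
    · exact h
  obtain ⟨t, ht⟩ : ∃ t : ℕ, t = if l = 5 then 4 else l - 6 := ⟨_, rfl⟩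
  have hl6 : l ≠ 6 := by
    rintro rfl
    exact absurd hp (by norm_num)
  have e : (range l).filter (fun y => ¬ Q l y) = {0, l - 2, t} := by
    ext y
    simp only [mem_filter, mem_range, mem_insert, mem_singleton, Q, not_not]
    constructor
    · rintro ⟨hy, h | h | h⟩
      · left
        rcases dvd_small hp.pos h (by omega) with h | h <;> omega
      · right; left
        rcases dvd_small hp.pos h (by omega) with h | h <;> omega
      · right; right
        by_cases h5 : l = 5
        · subst h5
          rw [ht, if_pos rfl]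
          omega
        · rw [ht, if_neg h5]
          rcases dvd_small hp.pos h (by omega) with h | h <;> omega
    · rintro (rfl | rfl | h)
      · exact ⟨by omega, Or.inl (dvd_zero l)⟩
      · refine ⟨by omega, Or.inr (Or.inl ?_)⟩
        rw [Nat.sub_add_cancel (by omega)]
      · by_cases h5 : l = 5
        · rw [ht, if_pos h5] at h
          subst h5
          subst h
          refine ⟨by omega, Or.inr (Or.inr ?_)⟩
          norm_num
        · rw [ht, if_neg h5] at h
          subst h
          refine ⟨by omega, Or.inr (Or.inr ?_)⟩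
          rw [Nat.sub_add_cancel (by omega)]
  have hc3 : ((range l).filter (fun y => ¬ Q l y)).card = 3 := by
    rw [e]
    have ht0 : t ≠ 0 ∧ t ≠ l - 2 := by
      rw [ht]
      by_cases h5 : l = 5
      · rw [if_pos h5]; omega
      · rw [if_neg h5]; omega
    rw [card_insert_of_notMem, card_insert_of_notMem, card_singleton]
    · rw [mem_singleton]; exact fun h => ht0.2 h.symm
    · rw [mem_insert, mem_singleton]
      rintro (h | h)
      · omega
      · exact ht0.1 h.symm
  have hsum := Finset.card_filter_add_card_filter_not (s := range l) (Q l)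
  rw [card_range, hc3] at hsum
  have hc : ((range l).filter (Q l)).card = l - 3 := by omega
  have e3 : (@Finset.filter ℕ (Q l) (fun a => Classical.propDecidable (Q l a)) (range l)).card = l - 3 := by
    rw [← hc]
  unfold un
  rw [e3]
  have hl0 : (l : ℝ) ≠ 0 := by
    have := hp.pos
    positivity
  rw [Nat.cast_sub (by omega)]
  field_simp
  norm_num

theorem T_PRD (hCRT : P_CRT) : P_PRD := by
  intro m S hm hS
  have h := hCRT m S Q hm hS
  have e : un m (fun y => ∀ l ∈ S, Q l (y % l)) =
      un m (fun y => ∀ l ∈ S, ¬ (l ∣ y ∨ l ∣ y + 2 ∨ l ∣ y + 6)) := by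
    apply un_congr
    intro y
    constructor
    · intro h l hl
      exact (Q_mod l y).1 (h l hl)
    · intro h l hl
      exact (Q_mod l y).2 (h l hl)
  rw [← e, h]
  apply Finset.prod_congr rfl
  intro l hl
  by_cases h2 : l = 2
  · rw [if_pos h2, h2, un_two]
  · rw [if_neg h2]
    by_cases h3 : l = 3
    · rw [if_pos h3, h3, un_three]
    · rw [if_neg h3, un_big (hS l hl).1 h2 h3]

end Pool.Agent.H969.TR.PRD
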